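import Pool.Agent.U481.GL.Stm

set_option autoImplicit false

/-!
Project GL, package DRV: differentiation of the Poisson integral under the integral sign.
-/

open MeasureTheory Filter Topology Set
open scoped ENNReal NNReal Real

namespace Pool.Agent.U606.GL.Drv

open Pool.Agent.U481.GL

/-- the Poisson kernel -/
noncomputable def pk (x y : ℝ) : ℝ := y / (π * (x ^ 2 + y ^ 2))

lemma poi_eq (f : ℝ → ℂ) (z y : ℝ) : poi f z y = ∫ t, ((pk (z - t) y : ℝ) : ℂ) * f t := by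
  unfold poi
  rw [← integral_const_mul, ← integral_sub_left_eq_self _ volume z]
  refine integral_congr_ae (Eventually.of_forall fun t => ?_)
  simp only [pk, sub_sub_cancel]
  push_cast
  rw [← mul_assoc]
  congr 1
  rw [div_mul_div_comm, one_mul]

lemma lower {z y M : ℝ} (t : ℝ) (hM : 2 ≤ M) (h : 1 + 2 * z ^ 2 ≤ M * y ^ 2) :
    1 + t ^ 2 ≤ M * ((z - t) ^ 2 + y ^ 2) := by
  nlinarith [sq_nonneg (2 * z - t), sq_nonneg (z - t)]

lemma pk_bound {z y M : ℝ} (t : ℝ) (hy : 0 < y) (hM : 2 ≤ M) (h : 1 + 2 * z ^ 2 ≤ M * y ^ 2) :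
    |pk (z - t) y| ≤ (y * M) / (1 + t ^ 2) := by
  have h1 := lower t hM h
  have hr : 0 < (z - t) ^ 2 + y ^ 2 := by positivity
  have ht : 0 < 1 + t ^ 2 := by positivity
  have hpi : 1 ≤ π := by linarith [Real.pi_gt_three]
  unfold pk
  rw [abs_of_nonneg (by positivity), div_le_div_iff₀ (by positivity) ht]
  calc y * (1 + t ^ 2) ≤ y * (M * ((z - t) ^ 2 + y ^ 2)) := mul_le_mul_of_nonneg_left h1 hy.le
    _ = y * M * (1 * ((z - t) ^ 2 + y ^ 2)) := by ring
    _ ≤ y * M * (π * ((z - t) ^ 2 + y ^ 2)) := by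
        apply mul_le_mul_of_nonneg_left _ (by positivity)
        exact mul_le_mul_of_nonneg_right hpi hr.le

lemma frac_bound {a r s M : ℝ} (hr : 0 < r) (hs : 0 < s) (hM : 0 ≤ M) (ha : |a| ≤ r)
    (h : s ≤ M * r) : |a / (π * r ^ 2)| ≤ M / s := by
  have hpi : 1 ≤ π := by linarith [Real.pi_gt_three]
  rw [abs_div, abs_of_pos (show 0 < π * r ^ 2 by positivity), div_le_div_iff₀ (by positivity) hs]
  calc |a| * s ≤ r * (M * r) := mul_le_mul ha h hs.le hr.le
    _ = M * (1 * r ^ 2) := by ring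
    _ ≤ M * (π * r ^ 2) := by
        apply mul_le_mul_of_nonneg_left _ hM
        exact mul_le_mul_of_nonneg_right hpi (by positivity)

lemma kz_bound {z y M : ℝ} (t : ℝ) (hy : 0 < y) (hM : 2 ≤ M) (h : 1 + 2 * z ^ 2 ≤ M * y ^ 2) :
    |kz (z - t) y| ≤ M / (1 + t ^ 2) := by
  have h1 := lower t hM h
  unfold kz
  refine frac_bound (by positivity) (by positivity) (by linarith) ?_ h1
  rw [abs_le]
  constructor <;> nlinarith [sq_nonneg (z - t - y), sq_nonneg (z - t + y)]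

lemma ky_bound {z y M : ℝ} (t : ℝ) (hy : 0 < y) (hM : 2 ≤ M) (h : 1 + 2 * z ^ 2 ≤ M * y ^ 2) :
    |ky (z - t) y| ≤ M / (1 + t ^ 2) := by
  have h1 := lower t hM h
  unfold ky
  refine frac_bound (by positivity) (by positivity) (by linarith) ?_ h1
  rw [abs_le]
  constructor <;> nlinarith [sq_nonneg (z - t), sq_nonneg y]

/-- The exported lemma: the kernels are bounded by `C / (1 + t²)`. -/
theorem kernels_le (q : ℝ × ℝ) (hq : 0 < q.2) : ∃ C : ℝ, 0 < C ∧ ∀ t : ℝ,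
    |kz (q.1 - t) q.2| ≤ C / (1 + t ^ 2) ∧ |ky (q.1 - t) q.2| ≤ C / (1 + t ^ 2) := by
  have hM : 2 ≤ 2 + (1 + 2 * q.1 ^ 2) / q.2 ^ 2 := by
    have : 0 ≤ (1 + 2 * q.1 ^ 2) / q.2 ^ 2 := by positivity
    linarith
  have h : 1 + 2 * q.1 ^ 2 ≤ (2 + (1 + 2 * q.1 ^ 2) / q.2 ^ 2) * q.2 ^ 2 := by
    rw [add_mul, div_mul_cancel₀ _ (by positivity)]
    nlinarith [sq_nonneg q.2]
  exact ⟨_, by linarith, fun t => ⟨kz_bound t hq hM h, ky_bound t hq hM h⟩⟩

lemma aesm {f : ℝ → ℂ} (hf : Integrable (fun x => f x / ((1 + x ^ 2 : ℝ) : ℂ))) :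
    AEStronglyMeasurable f volume := by
  have h1 : AEStronglyMeasurable (fun x : ℝ => ((1 + x ^ 2 : ℝ) : ℂ)) volume :=
    (by fun_prop : Continuous (fun x : ℝ => ((1 + x ^ 2 : ℝ) : ℂ))).aestronglyMeasurable
  have h2 := hf.aestronglyMeasurable.mul h1
  refine h2.congr (Eventually.of_forall fun x => ?_)
  have h3 : ((1 + x ^ 2 : ℝ) : ℂ) ≠ 0 := by
    rw [Complex.ofReal_ne_zero]
    positivity
  exact div_mul_cancel₀ _ h3

lemma norm_le {f : ℝ → ℂ} {K C : ℝ} {t : ℝ} (h : |K| ≤ C / (1 + t ^ 2)) :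
    ‖(K : ℂ) * f t‖ ≤ C * ‖f t / ((1 + t ^ 2 : ℝ) : ℂ)‖ := by
  have ht : (0 : ℝ) < 1 + t ^ 2 := by positivity
  rw [norm_mul, Complex.norm_real, norm_div, Complex.norm_real, Real.norm_of_nonneg ht.le,
    Real.norm_eq_abs]
  calc |K| * ‖f t‖ ≤ C / (1 + t ^ 2) * ‖f t‖ := mul_le_mul_of_nonneg_right h (norm_nonneg _)
    _ = C * (‖f t‖ / (1 + t ^ 2)) := by ring

lemma hasDerivAt_pk_z (x y t : ℝ) (hy : 0 < y) :
    HasDerivAt (fun z => pk (z - t) y) (kz (x - t) y) x := by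
  have hr : (x - t) ^ 2 + y ^ 2 ≠ 0 := by positivity
  have h1 : HasDerivAt (fun z : ℝ => π * ((z - t) ^ 2 + y ^ 2)) (π * (2 * (x - t))) x := by
    have h2 : HasDerivAt (fun z : ℝ => z - t) 1 x := (hasDerivAt_id x).sub_const t
    have h3 := ((h2.pow 2).add_const (y ^ 2)).const_mul π
    have e : π * (2 * (x - t)) = π * (((2 : ℕ) : ℝ) * (x - t) ^ (2 - 1) * 1) := by
      push_cast; ring
    rw [e]
    exact h3
  have h2 := (hasDerivAt_const x y).div h1 (by positivity)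
  have e : kz (x - t) y = (0 * (π * ((x - t) ^ 2 + y ^ 2)) - y * (π * (2 * (x - t)))) /
      (π * ((x - t) ^ 2 + y ^ 2)) ^ 2 := by
    unfold kz
    have hpi : π ≠ 0 := Real.pi_ne_zero
    field_simp
    ring
  rw [e]
  exact h2

lemma hasDerivAt_pk_y (x y : ℝ) (hy : 0 < y) :
    HasDerivAt (fun y => pk x y) (ky x y) y := by
  have hr : x ^ 2 + y ^ 2 ≠ 0 := by positivity
  have h1 : HasDerivAt (fun y : ℝ => π * (x ^ 2 + y ^ 2)) (π * (2 * y)) y := by
    have h3 := (((hasDerivAt_id y).pow 2).const_add (x ^ 2)).const_mul π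
    have e : π * (2 * y) = π * (((2 : ℕ) : ℝ) * (id y) ^ (2 - 1) * 1) := by
      simp only [id]
      push_cast; ring
    rw [e]
    exact h3
  have h2 := (hasDerivAt_id y).div h1 (by positivity)
  have e : ky x y = (1 * (π * (x ^ 2 + y ^ 2)) - id y * (π * (2 * y))) /
      (π * (x ^ 2 + y ^ 2)) ^ 2 := by
    unfold ky
    have hpi : π ≠ 0 := Real.pi_ne_zero
    simp only [id]
    field_simp
    ring
  rw [e]
  exact h2

lemma cont_pk {y : ℝ} (hy : 0 < y) (z : ℝ) : Continuous (fun t => pk (z - t) y) := by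
  unfold pk
  refine Continuous.div (by fun_prop) (by fun_prop) (fun t => ?_)
  positivity

lemma cont_kz {y : ℝ} (hy : 0 < y) (z : ℝ) : Continuous (fun t => kz (z - t) y) := by
  unfold kz
  refine Continuous.div (by fun_prop) (by fun_prop) (fun t => ?_)
  positivity

lemma cont_ky {y : ℝ} (hy : 0 < y) (z : ℝ) : Continuous (fun t => ky (z - t) y) := by
  unfold ky
  refine Continuous.div (by fun_prop) (by fun_prop) (fun t => ?_)
  positivity

lemma deriv_z {f : ℝ → ℂ} (hf : Integrable (fun x => f x / ((1 + x ^ 2 : ℝ) : ℂ)))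
    (z₀ y₀ : ℝ) (hy : 0 < y₀) :
    HasDerivAt (fun z => poi f z y₀) (Gz f (z₀, y₀)) z₀ := by
  have hfm := aesm hf
  set M : ℝ := 2 + (1 + 2 * (|z₀| + 1) ^ 2) / y₀ ^ 2 with hMdef
  have hM : 2 ≤ M := by
    have : 0 ≤ (1 + 2 * (|z₀| + 1) ^ 2) / y₀ ^ 2 := by positivity
    linarith
  have hz : ∀ z ∈ Metric.ball z₀ 1, 1 + 2 * z ^ 2 ≤ M * y₀ ^ 2 := by
    intro z hz
    rw [Metric.mem_ball, Real.dist_eq] at hz
    have h1 : |z| ≤ |z₀| + 1 := by
      have := abs_sub_abs_le_abs_sub z z₀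
      linarith
    have h2 : z ^ 2 ≤ (|z₀| + 1) ^ 2 := by
      rw [← sq_abs z]
      exact pow_le_pow_left₀ (abs_nonneg _) h1 2
    rw [hMdef, add_mul, div_mul_cancel₀ _ (by positivity)]
    nlinarith [sq_nonneg y₀]
  have hz0 := hz z₀ (Metric.mem_ball_self one_pos)
  have key := hasDerivAt_integral_of_dominated_loc_of_deriv_le (μ := volume)
    (F := fun z t => ((pk (z - t) y₀ : ℝ) : ℂ) * f t)
    (F' := fun z t => ((kz (z - t) y₀ : ℝ) : ℂ) * f t) (x₀ := z₀)
    (bound := fun t => M * ‖f t / ((1 + t ^ 2 : ℝ) : ℂ)‖) (s := Metric.ball z₀ 1)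
    (Metric.ball_mem_nhds z₀ one_pos)
    (Eventually.of_forall fun z =>
      (Complex.continuous_ofReal.comp (cont_pk hy z)).aestronglyMeasurable.mul hfm)
    (by
      refine (hf.norm.const_mul (y₀ * M)).mono'
        ((Complex.continuous_ofReal.comp (cont_pk hy z₀)).aestronglyMeasurable.mul hfm)
        (Eventually.of_forall fun t => ?_)
      exact norm_le (pk_bound t hy hM hz0))
    ((Complex.continuous_ofReal.comp (cont_kz hy z₀)).aestronglyMeasurable.mul hfm)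
    (Eventually.of_forall fun t z hzb => norm_le (kz_bound t hy hM (hz z hzb)))
    (hf.norm.const_mul M)
    (Eventually.of_forall fun t z _ => ((hasDerivAt_pk_z z y₀ t hy).ofReal_comp).mul_const (f t))
  have h1 := key.2
  have e : (fun z => poi f z y₀) = fun z => ∫ t, ((pk (z - t) y₀ : ℝ) : ℂ) * f t := by
    funext z
    exact poi_eq f z y₀
  rw [e]
  exact h1

lemma deriv_y {f : ℝ → ℂ} (hf : Integrable (fun x => f x / ((1 + x ^ 2 : ℝ) : ℂ)))
    (z₀ y₀ : ℝ) (hy : 0 < y₀) :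
    HasDerivAt (fun y => poi f z₀ y) (Gy f (z₀, y₀)) y₀ := by
  have hfm := aesm hf
  set M : ℝ := 2 + (1 + 2 * z₀ ^ 2) / (y₀ / 2) ^ 2 with hMdef
  have hM : 2 ≤ M := by
    have : 0 ≤ (1 + 2 * z₀ ^ 2) / (y₀ / 2) ^ 2 := by positivity
    linarith
  have hpos : ∀ y ∈ Metric.ball y₀ (y₀ / 2), y₀ / 2 < y := by
    intro y hyb
    rw [Metric.mem_ball, Real.dist_eq, abs_lt] at hyb
    linarith [hyb.1]
  have hz : ∀ y ∈ Metric.ball y₀ (y₀ / 2), 1 + 2 * z₀ ^ 2 ≤ M * y ^ 2 := by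
    intro y hyb
    have h1 := hpos y hyb
    have h2 : (y₀ / 2) ^ 2 ≤ y ^ 2 := pow_le_pow_left₀ (by positivity) h1.le 2
    calc 1 + 2 * z₀ ^ 2 ≤ M * (y₀ / 2) ^ 2 := by
          rw [hMdef, add_mul, div_mul_cancel₀ _ (by positivity)]
          nlinarith [sq_nonneg (y₀ / 2)]
      _ ≤ M * y ^ 2 := mul_le_mul_of_nonneg_left h2 (by linarith)
  have hself : y₀ ∈ Metric.ball y₀ (y₀ / 2) := Metric.mem_ball_self (by positivity)
  have key := hasDerivAt_integral_of_dominated_loc_of_deriv_le (μ := volume)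
    (F := fun y t => ((pk (z₀ - t) y : ℝ) : ℂ) * f t)
    (F' := fun y t => ((ky (z₀ - t) y : ℝ) : ℂ) * f t) (x₀ := y₀)
    (bound := fun t => M * ‖f t / ((1 + t ^ 2 : ℝ) : ℂ)‖) (s := Metric.ball y₀ (y₀ / 2))
    (Metric.ball_mem_nhds y₀ (by positivity))
    (by
      filter_upwards [Metric.ball_mem_nhds y₀ (show 0 < y₀ / 2 by positivity)] with y hyb
      have hy' : 0 < y := by linarith [hpos y hyb]
      exact (Complex.continuous_ofReal.comp (cont_pk hy' z₀)).aestronglyMeasurable.mul hfm)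
    (by
      refine (hf.norm.const_mul (y₀ * M)).mono'
        ((Complex.continuous_ofReal.comp (cont_pk hy z₀)).aestronglyMeasurable.mul hfm)
        (Eventually.of_forall fun t => ?_)
      exact norm_le (pk_bound t hy hM (hz y₀ hself)))
    ((Complex.continuous_ofReal.comp (cont_ky hy z₀)).aestronglyMeasurable.mul hfm)
    (Eventually.of_forall fun t y hyb =>
      norm_le (ky_bound t (by linarith [hpos y hyb]) hM (hz y hyb)))
    (hf.norm.const_mul M)
    (Eventually.of_forall fun t y hyb =>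
      ((hasDerivAt_pk_y (z₀ - t) y (by linarith [hpos y hyb])).ofReal_comp).mul_const (f t))
  have h1 := key.2
  have e : (fun y => poi f z₀ y) = fun y => ∫ t, ((pk (z₀ - t) y : ℝ) : ℂ) * f t := by
    funext y
    exact poi_eq f z₀ y
  rw [e]
  exact h1

/-- PACKAGE DRV. -/
theorem main : S_drv := by
  intro f hf q hq
  unfold gr G2
  rw [(deriv_z hf q.1 q.2 hq).deriv, (deriv_y hf q.1 q.2 hq).deriv]

end Pool.Agent.U606.GL.Drv
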